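import Pool.Agent.Helper6.NX.GoalsA

namespace Pool.Agent.Helper89.NX

open Equiv Pool.Agent.Helper15.An

/-- The splitting of the symmetric group into the two cosets of the alternating group. -/
theorem sum_cosets {n : ℕ} (τ : Perm (Fin n)) (hτ : Perm.sign τ = -1)
    (F : Perm (Fin n) → ℝ) :
    ∑ g, F g = ∑ g : Alt n, F (g : Perm (Fin n)) + ∑ g : Alt n, F (τ * (g : Perm (Fin n))) := by
  have hb : Function.Bijective
      (Sum.elim (fun g : Alt n => (g : Perm (Fin n))) (fun g : Alt n => τ * (g : Perm (Fin n)))) := by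
    constructor
    · rintro (g | g) (h | h) hgh
      · simp only [Sum.elim_inl] at hgh
        rw [Subtype.ext hgh]
      · simp only [Sum.elim_inl, Sum.elim_inr] at hgh
        have h1 := Perm.mem_alternatingGroup.mp g.2
        have h2 := Perm.mem_alternatingGroup.mp h.2
        rw [hgh, Perm.sign_mul, hτ, h2] at h1
        exact absurd h1 (by decide)
      · simp only [Sum.elim_inl, Sum.elim_inr] at hgh
        have h1 := Perm.mem_alternatingGroup.mp g.2
        have h2 := Perm.mem_alternatingGroup.mp h.2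
        rw [← hgh, Perm.sign_mul, hτ, h1] at h2
        exact absurd h2 (by decide)
      · simp only [Sum.elim_inr] at hgh
        rw [Subtype.ext (mul_left_cancel hgh)]
    · intro σ
      rcases Int.units_eq_one_or (Perm.sign σ) with h | h
      · exact ⟨Sum.inl ⟨σ, Perm.mem_alternatingGroup.mpr h⟩, rfl⟩
      · refine ⟨Sum.inr ⟨τ⁻¹ * σ, Perm.mem_alternatingGroup.mpr ?_⟩, ?_⟩
        · rw [Perm.sign_mul, Perm.sign_inv, hτ, h]
          decide
        · simp
  rw [← (Equiv.ofBijective _ hb).sum_comp, Fintype.sum_sum_type]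
  rfl

theorem thmM0S : Pool.Agent.Helper6.NX.S_M0S := by
  intro n k x A ε hn hk hS f hf
  have hcard : ∀ e : Alt n → Perm (Fin n), Function.Injective e →
      (Nat.card {g : Alt n // f (e g) ≠ 0} : ℝ) ≤ A := by
    intro e he
    refine le_trans ?_ hf
    have : Nat.card {g : Alt n // f (e g) ≠ 0} ≤ Nat.card {g : Perm (Fin n) // f g ≠ 0} := by
      apply Nat.card_le_card_of_injective
        (fun g : {g : Alt n // f (e g) ≠ 0} => (⟨e g.1, g.2⟩ : {g : Perm (Fin n) // f g ≠ 0}))
      intro a b hab
      simp only [Subtype.mk.injEq] at hab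
      exact Subtype.ext (he hab)
    exact_mod_cast this
  set τ : Perm (Fin n) := swap ⟨0, by omega⟩ ⟨1, by omega⟩ with hτd
  have hτ : Perm.sign τ = -1 := Perm.sign_swap (by simp)
  have h0 := hS (fun g => f (g : Perm (Fin n))) (hcard (fun g => (g : Perm (Fin n)))
    Subtype.coe_injective)
  have h1 := hS (fun g => f (τ * (g : Perm (Fin n)))) (hcard (fun g => τ * (g : Perm (Fin n)))
    (fun a b hab => Subtype.ext (mul_left_cancel hab)))
  rw [sum_cosets τ hτ, sum_cosets τ hτ (fun g => f g ^ 2), mul_add]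
  refine le_trans (le_of_eq ?_) (add_le_add h0 h1)
  simp only [Pool.Agent.Helper6.FixK.walk, Subgroup.coe_mul, Subgroup.coe_inv, mul_assoc]

end Pool.Agent.Helper89.NX
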