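import Pool.Agent.Helper6.NX.GoalsC

namespace Pool.Agent.Helper89.NX

open Equiv Finset Pool.Agent.Helper15.An Pool.Agent.Helper6.NX

theorem card_fix_emb {n f : ℕ} (g : Perm (Fin n)) :
    (univ.filter fun a : Fin f ↪ Fin n => ∀ i, g (a i) = a i).card =
      (fixc g).descFactorial f := by
  have h1 : (fixc g) = Fintype.card {x : Fin n // g x = x} := by
    rw [Fintype.card_subtype]
    rfl
  rw [h1, ← Fintype.card_fin f, ← Fintype.card_embedding_eq, Fintype.card_fin,
    ← Fintype.card_subtype]
  apply Fintype.card_congr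
  exact
    { toFun := fun a => ⟨fun i => ⟨a.1 i, a.2 i⟩, fun i j hij => a.1.injective
        (congrArg Subtype.val hij)⟩
      invFun := fun b => ⟨⟨fun i => (b i).1, fun i j hij => b.injective (Subtype.ext hij)⟩,
        fun i => (b i).2⟩
      left_inv := fun a => by ext; rfl
      right_inv := fun b => by ext; rfl }

theorem thmMOM0 : S_MOM0 := by
  intro n f κ
  unfold mom prT
  simp_rw [Finset.sum_filter]
  rw [Finset.sum_comm]
  refine Finset.sum_congr rfl fun g _ => ?_
  rw [← Finset.sum_filter, Finset.sum_const, card_fix_emb, nsmul_eq_mul, mul_comm]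

end Pool.Agent.Helper89.NX
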