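import Pool.Agent.Helper6.NX.GoalsB

namespace Pool.Agent.Helper89.NX

open Finset

theorem pair_sum (V : ℕ → ℝ) (hV : ∀ k, V (k + 1) ≤ V k) (c m : ℕ) :
    ∑ i ∈ range (2 * m), V (2 * c + i) ≤ 2 * ∑ j ∈ range m, V (2 * (c + j)) := by
  induction m with
  | zero => simp
  | succ m ih =>
    have h2 : 2 * (m + 1) = 2 * m + 1 + 1 := by ring
    rw [h2, sum_range_succ, sum_range_succ, sum_range_succ]
    have h3 : 2 * c + (2 * m + 1) = 2 * (c + m) + 1 := by ring
    have h4 : 2 * c + 2 * m = 2 * (c + m) := by ring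
    rw [h3, h4]
    have := hV (2 * (c + m))
    linarith

theorem thmTAIL : Pool.Agent.Helper6.NX.S_TAIL := by
  intro n kC V W K C τ a b hC ha hb hV hV0 hK hW hWs hCK hkC hrec
  have hanti : ∀ k, V (k + 1) ≤ V k := fun k => (hV k).2.2
  have hAnti : Antitone V := antitone_nat_of_succ_le hanti
  -- K as a longer sum
  have hKN : ∀ N, n ≤ N → K = ∑ k ∈ range N, V k := by
    intro N hN
    obtain ⟨m, rfl⟩ := Nat.exists_eq_add_of_le hN
    rw [Finset.sum_range_add, hK]
    have : ∑ x ∈ range m, V (n + x) = 0 := Finset.sum_eq_zero fun x _ => hV0 _ (by omega)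
    rw [this, add_zero]
  have hKge : ∀ N, ∑ k ∈ range N, V k ≤ K := by
    intro N
    rw [hKN (n + N) (by omega)]
    exact Finset.sum_le_sum_of_subset_of_nonneg (Finset.range_mono (by omega))
      fun k _ _ => (hV k).1
  have hkC' : (1 : ℝ) ≤ kC := by exact_mod_cast hkC
  have hVC : V kC * C ≤ 1 := by
    have h1 : (kC : ℝ) * V kC ≤ ∑ k ∈ range kC, V k := by
      have := Finset.card_nsmul_le_sum (range kC) V (V kC)
        (fun k hk => hAnti (Finset.mem_range.mp hk).le)
      rwa [Finset.card_range, nsmul_eq_mul] at this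
    have h2 := hKge kC
    have h3 : (kC : ℝ) * (V kC * C) ≤ kC * 1 := by
      calc (kC : ℝ) * (V kC * C) = C * (kC * V kC) := by ring
        _ ≤ C * K := mul_le_mul_of_nonneg_left (h1.trans h2) hC.le
        _ ≤ kC * 1 := by linarith
    exact le_of_mul_le_mul_left h3 (by linarith)
  -- the majorant
  set g : ℕ → ℝ := fun k => (2 / C + a) * V k + 2 * W k + b with hg
  have hg0 : ∀ k, 0 ≤ g k := by
    intro k
    have h1 := (hV k).1
    have h2 := hW k
    have h3 : 0 ≤ 2 / C + a := by positivity
    have := mul_nonneg h3 h1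
    simp only [hg]
    linarith
  have hstep : ∀ k, kC ≤ k → V (2 * k) ≤ g k := by
    intro k hk
    have h1 := hrec k
    have h2 : V k ≤ 1 / C := by
      rw [le_div_iff₀ hC]
      exact (mul_le_mul_of_nonneg_right (hAnti hk) hC.le).trans hVC
    have h3 : V k ^ 2 ≤ V k * (1 / C) := by
      rw [sq]
      exact mul_le_mul_of_nonneg_left h2 (hV k).1
    have h4 : (2 / C + a) * V k = 2 * (V k * (1 / C)) + a * V k := by ring
    simp only [hg]
    rw [h4]
    linarith
  set h : ℕ → ℝ := fun k => if k < n then g k else 0 with hh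
  have hh0 : ∀ k, 0 ≤ h k := by
    intro k
    simp only [hh]
    split_ifs
    · exact hg0 k
    · exact le_rfl
  have hstep' : ∀ k, kC ≤ k → V (2 * k) ≤ h k := by
    intro k hk
    simp only [hh]
    split_ifs with hkn
    · exact hstep k hk
    · rw [hV0 _ (by omega)]
  have e1 : K - ∑ k ∈ range (2 * kC), V k = ∑ i ∈ range (2 * n), V (2 * kC + i) := by
    rw [hKN (2 * kC + 2 * n) (by omega), Finset.sum_range_add]
    ring
  have e2 : ∑ j ∈ range n, V (2 * (kC + j)) ≤ ∑ k ∈ range n, g k := by
    calc ∑ j ∈ range n, V (2 * (kC + j)) ≤ ∑ j ∈ range n, h (kC + j) :=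
          Finset.sum_le_sum fun j _ => hstep' _ (by omega)
      _ ≤ ∑ k ∈ range kC, h k + ∑ j ∈ range n, h (kC + j) := by
          have := Finset.sum_nonneg (s := range kC) fun k _ => hh0 k
          linarith
      _ = ∑ k ∈ range (n + kC), h k := by
          rw [add_comm n kC, Finset.sum_range_add]
      _ = ∑ k ∈ range n, g k := by
          rw [Finset.sum_range_add]
          have h1 : ∑ x ∈ range kC, h (n + x) = 0 := by
            apply Finset.sum_eq_zero
            intro x _
            simp only [hh]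
            rw [if_neg (by omega)]
          have h2 : ∑ k ∈ range n, h k = ∑ k ∈ range n, g k := by
            apply Finset.sum_congr rfl
            intro k hk
            simp only [hh]
            rw [if_pos (Finset.mem_range.mp hk)]
          rw [h1, h2, add_zero]
  have e3 : ∑ k ∈ range n, g k = (2 / C + a) * K + 2 * ∑ k ∈ range n, W k + n * b := by
    simp only [hg, Finset.sum_add_distrib, ← Finset.mul_sum, Finset.sum_const, Finset.card_range,
      nsmul_eq_mul, ← hK]
  have e4 := pair_sum V hanti kC n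
  rw [e1]
  have e5 : (4 / C + 2 * a + 4 * τ) * K + 2 * n * b =
      2 * ((2 / C + a) * K + 2 * (τ * K) + n * b) := by ring
  rw [e5]
  linarith

end Pool.Agent.Helper89.NX
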